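import Pool.Agent.Lib.MP_18dec4_ag.Main

namespace Pool.Agent.Results.MP_18dec4_ag.LogCanonicalNotS2

open Pool.Agent.Lib.MP_18dec4_ag

/-- For every prime `p > 2` there is an affine scheme `X = Spec A`, integral and normal, flat and
of finite type over `ℤ_p`, such that the pair `(X, X_p)` is log canonical and the closed fibre
`X_p = Spec A/(p)` is integral, in particular irreducible, but not `S_2`. -/
theorem result : ∀ (p : ℕ) [Fact p.Prime], 2 < p →
    ∃ (A : Type) (_ : CommRing A) (_ : IsDomain A) (_ : Algebra ℤ_[p] A),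
      IsIntegrallyClosed A ∧ Algebra.FiniteType ℤ_[p] A ∧ Module.Flat ℤ_[p] A ∧
      IsLogCanonicalPair ℤ_[p] A (FractionRing A) (p : A) ∧
      IsDomain (A ⧸ Ideal.span {(p : A)}) ∧
      IrreducibleSpace (PrimeSpectrum (A ⧸ Ideal.span {(p : A)})) ∧
      ¬ IsSerreS2 (A ⧸ Ideal.span {(p : A)}) := by
  intro p _ hp
  have hdom : IsDomain (Ap p ⧸ Ideal.span {(p : Ap p)}) :=
    (Ideal.Quotient.isDomain_iff_prime _).2 (isPrime_span_p p)
  exact ⟨Ap p, inferInstance, inferInstance, inferInstance, isIntegrallyClosed_Ap p,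
    finiteType_Ap p hp, inferInstance, isLogCanonicalPair_Ap p hp, hdom,
    PrimeSpectrum.irreducibleSpace, not_isSerreS2_Ap p hp⟩

end Pool.Agent.Results.MP_18dec4_ag.LogCanonicalNotS2
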